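import Mathlib
import Pool.Agent.X83.DA.Stm

/-! Project DA: the energy estimate. -/

set_option autoImplicit false

namespace Pool.Agent.X200.DA

open MeasureTheory Set Filter Topology RealInnerProductSpace
open Pool.Agent.X83.DA

theorem dV {H : Type*} [NormedAddCommGroup H] [InnerProductSpace ℝ H] (Z R W : ℝ → H)
    (hW : Continuous W) (hZ : ∀ s, HasDerivAt Z (R s) s)
    (hsym : ∀ s t : ℝ, ⟪W t, Z s⟫ = ⟪Z t, W s⟫) (s : ℝ) :
    HasDerivAt (fun s => ⟪W s, Z s⟫) (2 * ⟪W s, R s⟫) s := by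
  have h1 : Tendsto (slope Z s) (𝓝[≠] s) (𝓝 (R s)) := hasDerivAt_iff_tendsto_slope.1 (hZ s)
  have h2 : Tendsto (fun t => W t + W s) (𝓝[≠] s) (𝓝 (W s + W s)) :=
    ((hW.tendsto s).mono_left nhdsWithin_le_nhds).add_const _
  have h3 : Tendsto (fun t => ⟪W t + W s, slope Z s t⟫) (𝓝[≠] s) (𝓝 ⟪W s + W s, R s⟫) :=
    h2.inner h1
  have e : ⟪W s + W s, R s⟫ = 2 * ⟪W s, R s⟫ := by rw [inner_add_left]; ring
  rw [e] at h3
  rw [hasDerivAt_iff_tendsto_slope]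
  refine h3.congr fun t => ?_
  rw [slope_def_module, slope_def_module, inner_smul_right, inner_add_left, inner_sub_right,
    inner_sub_right, hsym s t, real_inner_comm (W s) (Z t), smul_eq_mul]
  ring

theorem alg (b c ε r z v g zr rg zg : ℝ) (hb : 0 < b) (hε : 0 < ε) (hr : 0 ≤ r) (hz : 0 ≤ z)
    (hg : 0 ≤ g) (hv : b * z ^ 2 ≤ v) (h1 : ε ≤ 1 / 2) (h2 : ε ≤ b / 2) (hc : 0 < c)
    (h3 : ε * (2 + 2 * c ^ 2 / b) ≤ c) (hzr : |zr| ≤ z * r) (hrg : |rg| ≤ r * g)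
    (hzg : |zg| ≤ z * g) :
    (r ^ 2 + v) / 2 ≤ r ^ 2 + v + 2 * ε * zr ∧ r ^ 2 + v + 2 * ε * zr ≤ 2 * (r ^ 2 + v) ∧
    -2 * c * r ^ 2 + 2 * rg + 2 * ε * r ^ 2 - 2 * ε * c * zr - 2 * ε * v + 2 * ε * zg ≤
      -(ε / 4) * (r ^ 2 + v + 2 * ε * zr) + 4 / ε * g ^ 2 := by
  obtain ⟨a1, a2⟩ := abs_le.1 hzr
  obtain ⟨a3, a4⟩ := abs_le.1 hrg
  obtain ⟨a5, a6⟩ := abs_le.1 hzg
  have hv0 : 0 ≤ v := le_trans (by positivity) hv
  have k1 : 2 * ε * (z * r) ≤ (r ^ 2 + v) / 2 := by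
    have e1 : 2 * ε * (z * r) ≤ ε * z ^ 2 + ε * r ^ 2 := by nlinarith [sq_nonneg (z - r)]
    have e2 : ε * z ^ 2 ≤ b / 2 * z ^ 2 := mul_le_mul_of_nonneg_right h2 (sq_nonneg _)
    have e3 : ε * r ^ 2 ≤ 1 / 2 * r ^ 2 := mul_le_mul_of_nonneg_right h1 (sq_nonneg _)
    linarith
  have k2 : -(2 * ε * (z * r)) ≤ 2 * ε * zr := by nlinarith
  have k3 : 2 * ε * zr ≤ 2 * ε * (z * r) := by nlinarith
  have hup : r ^ 2 + v + 2 * ε * zr ≤ 2 * (r ^ 2 + v) := by nlinarith [sq_nonneg r]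
  refine ⟨by linarith, hup, ?_⟩
  -- the cross term
  have k4 : -(2 * ε * c * zr) ≤ ε / 2 * v + 2 * ε * c ^ 2 / b * r ^ 2 := by
    have e1 : -(2 * ε * c * zr) ≤ 2 * ε * c * (z * r) := by
      have : 0 ≤ 2 * ε * c := by positivity
      nlinarith
    have e2 : 2 * ε * c * (z * r) ≤ ε / 2 * (b * z ^ 2) + 2 * ε * c ^ 2 / b * r ^ 2 := by
      have e3 : ε / 2 * (b * z ^ 2) + 2 * ε * c ^ 2 / b * r ^ 2 - 2 * ε * c * (z * r) =
          ε / (2 * b) * (b * z - 2 * c * r) ^ 2 := by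
        field_simp
        ring
      have e4 : 0 ≤ ε / (2 * b) * (b * z - 2 * c * r) ^ 2 := by positivity
      linarith
    have e5 : ε / 2 * (b * z ^ 2) ≤ ε / 2 * v := mul_le_mul_of_nonneg_left hv (by positivity)
    linarith
  have k5 : 2 * ε * r ^ 2 + 2 * ε * c ^ 2 / b * r ^ 2 ≤ c * r ^ 2 := by
    have e1 : 2 * ε * r ^ 2 + 2 * ε * c ^ 2 / b * r ^ 2 = ε * (2 + 2 * c ^ 2 / b) * r ^ 2 := by
      ring
    rw [e1]
    exact mul_le_mul_of_nonneg_right h3 (sq_nonneg _)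
  have hεc : ε ≤ c := by
    have e1 : 0 ≤ ε * (2 * c ^ 2 / b) := by positivity
    nlinarith
  -- the forcing
  have k6 : 2 * rg + 2 * ε * zg ≤ ε / 4 * (r + ε * z) ^ 2 + 4 / ε * g ^ 2 := by
    have e1 : 2 * rg + 2 * ε * zg ≤ 2 * ((r + ε * z) * g) := by nlinarith
    have e2 : ε / 4 * (r + ε * z) ^ 2 + 4 / ε * g ^ 2 - 2 * ((r + ε * z) * g) =
        (ε * (r + ε * z) - 4 * g) ^ 2 / (4 * ε) := by
      field_simp
      ring
    have e3 : 0 ≤ (ε * (r + ε * z) - 4 * g) ^ 2 / (4 * ε) := by positivity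
    linarith
  have k7 : (r + ε * z) ^ 2 ≤ 2 * (r ^ 2 + v) := by
    have e1 : (r + ε * z) ^ 2 ≤ 2 * r ^ 2 + 2 * (ε ^ 2 * z ^ 2) := by
      nlinarith [sq_nonneg (r - ε * z)]
    have e2 : ε ^ 2 ≤ b := by nlinarith
    have e3 : ε ^ 2 * z ^ 2 ≤ b * z ^ 2 := mul_le_mul_of_nonneg_right e2 (sq_nonneg _)
    linarith
  have k8 : ε / 4 * (r + ε * z) ^ 2 ≤ ε / 2 * (r ^ 2 + v) := by
    have := mul_le_mul_of_nonneg_left k7 (by positivity : 0 ≤ ε / 4)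
    linarith
  have k9 : ε / 4 * (r ^ 2 + v + 2 * ε * zr) ≤ ε / 2 * (r ^ 2 + v) := by
    have := mul_le_mul_of_nonneg_left hup (by positivity : 0 ≤ ε / 4)
    linarith
  have k10 : ε * r ^ 2 ≤ c * r ^ 2 := mul_le_mul_of_nonneg_right hεc (sq_nonneg _)
  have k11 : 0 ≤ ε * v := by positivity
  nlinarith

theorem en (H : Type*) [NormedAddCommGroup H] [InnerProductSpace ℝ H] [CompleteSpace H] :
    Pool.Agent.X83.DA.S_EN H := by
  intro b c1 c2 hb hc1 hc12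
  set ε : ℝ := min (min (1 / 2) (b / 2)) (c1 / (2 + 2 * c2 ^ 2 / b)) with hεdef
  have hden : 0 < 2 + 2 * c2 ^ 2 / b := by positivity
  have hε : 0 < ε := lt_min (lt_min (by norm_num) (by positivity)) (by positivity)
  have hε1 : ε ≤ 1 / 2 := (min_le_left _ _).trans (min_le_left _ _)
  have hε2 : ε ≤ b / 2 := (min_le_left _ _).trans (min_le_right _ _)
  have hε3 : ε * (2 + 2 * c2 ^ 2 / b) ≤ c1 := by
    have := min_le_right (min (1 / 2) (b / 2)) (c1 / (2 + 2 * c2 ^ 2 / b))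
    rw [← hεdef] at this
    exact (le_div_iff₀ hden).1 this
  refine ⟨ε / 4, by positivity, fun γ hγ hγε => ?_⟩
  set M : ℝ := (4 + 8 / (ε * γ)) * (1 + 1 / b) with hM
  have hM0 : 0 ≤ M := by positivity
  refine ⟨Real.sqrt M, Real.sqrt_nonneg _, ?_⟩
  intro D A hSA c hcc Z R W g m hm hWc hZ hR hZD hg
  have hc0 : 0 < c := hc1.trans_le hcc.1
  have hsym : ∀ s t : ℝ, ⟪W t, Z s⟫ = ⟪Z t, W s⟫ := by
    intro s t
    obtain ⟨m1, n1⟩ := hZD t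
    obtain ⟨m2, n2⟩ := hZD s
    rw [← n1, ← n2]
    exact hSA.sym ⟨Z t, m1⟩ ⟨Z s, m2⟩
  have hcoer : ∀ s : ℝ, b * ‖Z s‖ ^ 2 ≤ ⟪W s, Z s⟫ := by
    intro s
    obtain ⟨m1, n1⟩ := hZD s
    rw [← n1]
    exact hSA.coer ⟨Z s, m1⟩
  have hε4 : ε * (2 + 2 * c ^ 2 / b) ≤ c := by
    have e1 : 2 + 2 * c ^ 2 / b ≤ 2 + 2 * c2 ^ 2 / b := by
      have : c ^ 2 ≤ c2 ^ 2 := pow_le_pow_left₀ hc0.le hcc.2 2
      gcongr
    exact (mul_le_mul_of_nonneg_left e1 hε.le).trans (hε3.trans hcc.1)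
  have hal := fun s : ℝ => alg b c ε ‖R s‖ ‖Z s‖ ⟪W s, Z s⟫ ‖g s‖ ⟪Z s, R s⟫ ⟪R s, g s⟫
    ⟪Z s, g s⟫ hb hε (norm_nonneg _) (norm_nonneg _) (norm_nonneg _) (hcoer s) hε1 hε2 hc0 hε4
    (abs_real_inner_le_norm _ _) (abs_real_inner_le_norm _ _) (abs_real_inner_le_norm _ _)
  set E : ℝ → ℝ := fun s => ‖R s‖ ^ 2 + ⟪W s, Z s⟫ + 2 * ε * ⟪Z s, R s⟫ with hE
  have hEd : ∀ s, HasDerivAt E (-2 * c * ‖R s‖ ^ 2 + 2 * ⟪R s, g s⟫ + 2 * ε * ‖R s‖ ^ 2 -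
      2 * ε * c * ⟪Z s, R s⟫ - 2 * ε * ⟪W s, Z s⟫ + 2 * ε * ⟪Z s, g s⟫) s := by
    intro s
    have d1 := (hR s).norm_sq
    have d2 := dV Z R W hWc hZ hsym s
    have d3 := ((hZ s).inner ℝ (hR s)).const_mul (2 * ε)
    refine ((d1.add d2).add d3).congr_deriv ?_
    simp only [inner_add_right, inner_sub_right, inner_neg_right, inner_smul_right]
    rw [real_inner_self_eq_norm_sq, real_inner_comm (W s) (R s), real_inner_comm (W s) (Z s)]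
    ring
  set K : ℝ := 4 / ε * m ^ 2 with hK
  have hK0 : 0 ≤ K := by positivity
  set F : ℝ → ℝ := fun s => Real.exp (γ * s) * E s + K / γ * Real.exp (-(γ * s)) with hF
  have hFd : ∀ s, HasDerivAt F (Real.exp (γ * s) * γ * E s + Real.exp (γ * s) *
      (-2 * c * ‖R s‖ ^ 2 + 2 * ⟪R s, g s⟫ + 2 * ε * ‖R s‖ ^ 2 -
      2 * ε * c * ⟪Z s, R s⟫ - 2 * ε * ⟪W s, Z s⟫ + 2 * ε * ⟪Z s, g s⟫) +
      K / γ * (Real.exp (-(γ * s)) * -γ)) s := by
    intro s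
    have d0 : HasDerivAt (fun s : ℝ => γ * s) γ s := by
      simpa using (hasDerivAt_id s).const_mul γ
    exact (d0.exp.mul (hEd s)).add ((d0.neg.exp).const_mul (K / γ))
  have hanti : AntitoneOn F (Ici 0) := by
    refine antitoneOn_of_deriv_nonpos (convex_Ici 0)
      (fun s _ => (hFd s).continuousAt.continuousWithinAt)
      (fun s _ => (hFd s).differentiableAt.differentiableWithinAt) fun s hs => ?_
    rw [interior_Ici] at hs
    have hs0 : (0 : ℝ) ≤ s := le_of_lt hs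
    rw [(hFd s).deriv]
    obtain ⟨q1, q2, q3⟩ := hal s
    have hE0 : 0 ≤ E s := by
      refine le_trans ?_ q1
      have := hcoer s
      have h0 : 0 ≤ b * ‖Z s‖ ^ 2 := by positivity
      have h1 : 0 ≤ ‖R s‖ ^ 2 := sq_nonneg _
      linarith
    have q4 : ‖g s‖ ^ 2 ≤ m ^ 2 * Real.exp (-(γ * s)) ^ 2 := by
      rw [← mul_pow]
      exact pow_le_pow_left₀ (norm_nonneg _) (hg s hs0) 2
    have q5 : 4 / ε * ‖g s‖ ^ 2 ≤ K * Real.exp (-(γ * s)) ^ 2 := by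
      have := mul_le_mul_of_nonneg_left q4 (by positivity : 0 ≤ 4 / ε)
      rw [hK]
      linarith
    have q6 : γ * E s ≤ ε / 4 * E s := mul_le_mul_of_nonneg_right hγε hE0
    have q7 : -2 * c * ‖R s‖ ^ 2 + 2 * ⟪R s, g s⟫ + 2 * ε * ‖R s‖ ^ 2 -
        2 * ε * c * ⟪Z s, R s⟫ - 2 * ε * ⟪W s, Z s⟫ + 2 * ε * ⟪Z s, g s⟫ ≤
        -(γ * E s) + K * Real.exp (-(γ * s)) ^ 2 := by
      have : -(ε / 4) * (‖R s‖ ^ 2 + ⟪W s, Z s⟫ + 2 * ε * ⟪Z s, R s⟫) = -(ε / 4 * E s) := by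
        rw [hE]
        ring
      linarith
    have q8 := mul_le_mul_of_nonneg_left q7 (Real.exp_pos (γ * s)).le
    have q9 : Real.exp (γ * s) * Real.exp (-(γ * s)) = 1 := by
      rw [← Real.exp_add, add_neg_cancel, Real.exp_zero]
    have q10 : Real.exp (γ * s) * (-(γ * E s) + K * Real.exp (-(γ * s)) ^ 2) =
        -(Real.exp (γ * s) * γ * E s) + K * Real.exp (-(γ * s)) := by
      have : Real.exp (γ * s) * (-(γ * E s) + K * Real.exp (-(γ * s)) ^ 2) =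
        -(Real.exp (γ * s) * γ * E s) +
          K * Real.exp (-(γ * s)) * (Real.exp (γ * s) * Real.exp (-(γ * s))) := by ring
      rw [this, q9, mul_one]
    have q11 : K / γ * (Real.exp (-(γ * s)) * -γ) = -(K * Real.exp (-(γ * s))) := by
      field_simp
    rw [q11]
    linarith
  have hEb : ∀ s : ℝ, 0 ≤ s → E s ≤ (E 0 + K / γ) * Real.exp (-(γ * s)) := by
    intro s hs
    have h1 := hanti (mem_Ici.2 le_rfl) (mem_Ici.2 hs) hs
    have h2 : F 0 = E 0 + K / γ := by simp [hF]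
    rw [h2] at h1
    have h3 : Real.exp (γ * s) * E s ≤ E 0 + K / γ := by
      refine le_trans ?_ h1
      have : 0 ≤ K / γ * Real.exp (-(γ * s)) := by positivity
      show Real.exp (γ * s) * E s ≤ Real.exp (γ * s) * E s + K / γ * Real.exp (-(γ * s))
      linarith
    have h4 := mul_le_mul_of_nonneg_right h3 (Real.exp_pos (-(γ * s))).le
    have q9 : Real.exp (γ * s) * Real.exp (-(γ * s)) = 1 := by
      rw [← Real.exp_add, add_neg_cancel, Real.exp_zero]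
    have h5 : Real.exp (γ * s) * E s * Real.exp (-(γ * s)) = E s := by
      have : Real.exp (γ * s) * E s * Real.exp (-(γ * s)) =
        E s * (Real.exp (γ * s) * Real.exp (-(γ * s))) := by ring
      rw [this, q9, mul_one]
    rw [h5] at h4
    exact h4
  set V0 : ℝ := ⟪W 0, Z 0⟫ with hV0
  have hV00 : 0 ≤ V0 := le_trans (by positivity) (hcoer 0)
  set S : ℝ := Real.sqrt V0 + ‖R 0‖ + m with hS
  have hS0 : 0 ≤ S := by positivity
  have hSq : ‖R 0‖ ^ 2 + V0 ≤ S ^ 2 ∧ m ^ 2 ≤ S ^ 2 := by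
    have e1 : Real.sqrt V0 ^ 2 = V0 := Real.sq_sqrt hV00
    have e2 := Real.sqrt_nonneg V0
    have e3 := norm_nonneg (R 0)
    constructor
    · rw [hS]
      nlinarith [mul_nonneg e2 e3, mul_nonneg e2 hm, mul_nonneg e3 hm]
    · refine pow_le_pow_left₀ hm ?_ 2
      linarith
  have hEs : ∀ s : ℝ, 0 ≤ s → 2 * E s ≤ (4 + 8 / (ε * γ)) * S ^ 2 * Real.exp (-(γ * s)) := by
    intro s hs
    have h1 := hEb s hs
    have h2 : E 0 ≤ 2 * S ^ 2 := by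
      have := (hal 0).2.1
      have h3 : E 0 ≤ 2 * (‖R 0‖ ^ 2 + V0) := this
      linarith [hSq.1]
    have h4 : K / γ ≤ 4 / (ε * γ) * S ^ 2 := by
      have : K / γ = 4 / (ε * γ) * m ^ 2 := by
        rw [hK]
        field_simp
      rw [this]
      exact mul_le_mul_of_nonneg_left hSq.2 (by positivity)
    have h5 : 2 * (E 0 + K / γ) ≤ (4 + 8 / (ε * γ)) * S ^ 2 := by
      have : (4 + 8 / (ε * γ)) * S ^ 2 = 2 * (2 * S ^ 2 + 4 / (ε * γ) * S ^ 2) := by ring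
      rw [this]
      linarith
    have h6 := mul_le_mul_of_nonneg_right h5 (Real.exp_pos (-(γ * s))).le
    linarith
  have hfin : ∀ s x : ℝ, 0 ≤ x →
      x ^ 2 ≤ M * S ^ 2 * Real.exp (-(γ * s)) → x ≤ Real.sqrt M * S * Real.exp (-(γ / 2 * s)) := by
    intro s x hx hx2
    have h0 : 0 ≤ Real.sqrt M * S * Real.exp (-(γ / 2 * s)) := by positivity
    refine (pow_le_pow_iff_left₀ hx h0 two_ne_zero).1 ?_
    refine hx2.trans (le_of_eq ?_)
    rw [mul_pow, mul_pow, Real.sq_sqrt hM0, sq (Real.exp _), ← Real.exp_add]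
    congr 2
    ring
  intro s hs
  have hq := (hal s).1
  have hb1 : 0 ≤ 1 / b := by positivity
  have hq2 : ‖R s‖ ^ 2 + ⟪W s, Z s⟫ ≤ 2 * E s := by
    have : (‖R s‖ ^ 2 + ⟪W s, Z s⟫) / 2 ≤ E s := hq
    linarith
  have hX0 : 0 ≤ (4 + 8 / (ε * γ)) * S ^ 2 * Real.exp (-(γ * s)) := by positivity
  have hMX : M * S ^ 2 * Real.exp (-(γ * s)) = (4 + 8 / (ε * γ)) * S ^ 2 * Real.exp (-(γ * s)) +
      1 / b * ((4 + 8 / (ε * γ)) * S ^ 2 * Real.exp (-(γ * s))) := by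
    rw [hM]
    ring
  have hcs := hcoer s
  constructor
  · refine hfin s _ (norm_nonneg _) ?_
    rw [hMX]
    have h1 : b * ‖Z s‖ ^ 2 ≤ (4 + 8 / (ε * γ)) * S ^ 2 * Real.exp (-(γ * s)) := by
      have := hEs s hs
      have h0 : 0 ≤ ‖R s‖ ^ 2 := sq_nonneg _
      linarith
    have h2 : ‖Z s‖ ^ 2 = 1 / b * (b * ‖Z s‖ ^ 2) := by
      field_simp
    rw [h2]
    have h3 := mul_le_mul_of_nonneg_left h1 hb1
    linarith
  · refine hfin s _ (norm_nonneg _) ?_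
    rw [hMX]
    have h1 : ‖R s‖ ^ 2 ≤ (4 + 8 / (ε * γ)) * S ^ 2 * Real.exp (-(γ * s)) := by
      have := hEs s hs
      have h0 : 0 ≤ b * ‖Z s‖ ^ 2 := by positivity
      linarith
    have h3 := mul_nonneg hb1 hX0
    linarith

end Pool.Agent.X200.DA
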