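import Mathlib
import Pool.Agent.X83.DA.Stm

/-! Project DA: the upper bound by duality. -/

set_option autoImplicit false

namespace Pool.Agent.X200.DA

open MeasureTheory Set Filter Topology RealInnerProductSpace
open Pool.Agent.X83.DA

variable {H : Type*} [NormedAddCommGroup H] [InnerProductSpace ℝ H]

theorem jcont (G : ℝ → H →L[ℝ] H) (C : ℝ) (hG : ∀ x, Continuous fun t => G t x)
    (hb : ∀ (v : H) (s : ℝ), 0 ≤ s → ‖G s v‖ ≤ C * ‖v‖) :
    Continuous fun q : ℝ × H => G (max q.1 0) q.2 := by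
  rw [continuous_iff_continuousAt]
  intro q
  rw [ContinuousAt, tendsto_iff_norm_sub_tendsto_zero]
  have h1 : Tendsto (fun p : ℝ × H => C * ‖p.2 - q.2‖ + ‖G (max p.1 0) q.2 - G (max q.1 0) q.2‖)
      (𝓝 q) (𝓝 0) := by
    have h2 : Continuous fun p : ℝ × H =>
        C * ‖p.2 - q.2‖ + ‖G (max p.1 0) q.2 - G (max q.1 0) q.2‖ := by
      refine (continuous_const.mul (continuous_snd.sub continuous_const).norm).add ?_
      refine (Continuous.sub ?_ continuous_const).norm
      exact (hG q.2).comp (continuous_fst.max continuous_const)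
    have h3 := h2.tendsto q
    simpa using h3
  refine squeeze_zero (fun _ => norm_nonneg _) (fun p => ?_) h1
  have h4 : G (max p.1 0) p.2 - G (max q.1 0) q.2 =
      G (max p.1 0) (p.2 - q.2) + (G (max p.1 0) q.2 - G (max q.1 0) q.2) := by
    rw [map_sub]
    abel
  rw [h4]
  refine (norm_add_le _ _).trans ?_
  have := hb (p.2 - q.2) (max p.1 0) (le_max_right _ _)
  linarith

theorem Gint (G : ℝ → H →L[ℝ] H) (C : ℝ) (hG : ∀ x, Continuous fun t => G t x)
    (hb : ∀ (v : H) (s : ℝ), 0 ≤ s → ‖G s v‖ ≤ C * ‖v‖) (f : ℝ → H) (hf : LocallyIntegrable f)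
    (t p q : ℝ) (hpq : p ≤ q) (hqt : q ≤ t) :
    IntervalIntegrable (fun s => G (t - s) (f s)) volume p q := by
  rw [intervalIntegrable_iff_integrableOn_Ioc_of_le hpq]
  have h1 : IntegrableOn f (Ioc p q) :=
    (hf.integrableOn_isCompact isCompact_Icc).mono_set Ioc_subset_Icc_self
  have h2 : AEStronglyMeasurable (fun s => G (max (t - s) 0) (f s)) (volume.restrict (Ioc p q)) := by
    have h3 : AEStronglyMeasurable (fun s => (t - s, f s)) (volume.restrict (Ioc p q)) :=
      (continuous_const.sub continuous_id).aestronglyMeasurable.prodMk h1.aestronglyMeasurable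
    exact (jcont G C hG hb).comp_aestronglyMeasurable h3
  have h4 : IntegrableOn (fun s => G (max (t - s) 0) (f s)) (Ioc p q) := by
    refine Integrable.mono' (h1.norm.const_mul C) h2 ?_
    exact Eventually.of_forall fun s => hb _ _ (le_max_right _ _)
  refine h4.congr_fun (fun s hs => ?_) measurableSet_Ioc
  show G (max (t - s) 0) (f s) = G (t - s) (f s)
  rw [max_eq_left (by linarith [hs.2])]

theorem Gvint (G : ℝ → H →L[ℝ] H) (C γ : ℝ) (hγ : 0 < γ) (hG : ∀ x, Continuous fun t => G t x)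
    (hb : ∀ (v : H) (s : ℝ), 0 ≤ s → ‖G s v‖ ≤ C * ‖v‖ * Real.exp (-(γ * s))) (v : H) :
    IntegrableOn (fun s => ‖G s v‖) (Ioi 0) := by
  have h2 : IntegrableOn (fun s : ℝ => Real.exp (-(γ * s))) (Ioi 0) := by
    have := integrableOn_exp_mul_Ioi (a := -γ) (by linarith) 0
    refine this.congr_fun (fun s _ => ?_) measurableSet_Ioi
    show Real.exp (-γ * s) = Real.exp (-(γ * s))
    congr 1
    ring
  refine Integrable.mono' (h2.const_mul (C * ‖v‖)) (hG v).norm.aestronglyMeasurable ?_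
  filter_upwards [ae_restrict_mem measurableSet_Ioi] with s hs
  rw [norm_norm]
  exact hb v s (le_of_lt hs)

theorem t (H : Type*) [NormedAddCommGroup H] [InnerProductSpace ℝ H] [CompleteSpace H] :
    Pool.Agent.X83.DA.S_UP H := by
  intro D A b c K P G hK hSA hFam hDec hsym hz hP
  intro x z hx hxz u1 f L hf hL ε hε
  obtain ⟨γ, C, hγ, hC, hdec⟩ := hDec
  have hzz : Tendsto z atTop (𝓝 0) := hz x z hx hxz
  have hGc := hFam.cont
  have hexpγ : ∀ s : ℝ, 0 ≤ s → Real.exp (-(γ * s)) ≤ 1 := fun s hs => by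
    rw [Real.exp_le_one_iff]
    have := mul_nonneg hγ.le hs
    linarith
  have hb : ∀ (v : H) (s : ℝ), 0 ≤ s → ‖G s v‖ ≤ C * ‖v‖ := fun v s hs =>
    ((hdec v s hs).2).trans (mul_le_of_le_one_right (mul_nonneg hC (norm_nonneg _)) (hexpγ s hs))
  obtain ⟨T1, hT1⟩ := eventually_atTop.1 hL
  set T0 : ℝ := max T1 0 with hT0def
  have hT00 : 0 ≤ T0 := le_max_right _ _
  have hT0 : ∀ s, T0 ≤ s → ‖f s‖ ≤ L := fun s hs => hT1 s ((le_max_left _ _).trans hs)
  have hL0 : 0 ≤ L := (norm_nonneg _).trans (hT0 T0 le_rfl)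
  have hexp : Tendsto (fun t : ℝ => Real.exp (-(γ * t))) atTop (𝓝 0) :=
    Real.tendsto_exp_neg_atTop_nhds_zero.comp (tendsto_id.const_mul_atTop hγ)
  have hg0 : Tendsto (fun t => G t u1) atTop (𝓝 0) := by
    have h1 : Tendsto (fun t : ℝ => C * ‖u1‖ * Real.exp (-(γ * t))) atTop (𝓝 0) := by
      simpa using hexp.const_mul (C * ‖u1‖)
    refine squeeze_zero_norm' ?_ h1
    filter_upwards [eventually_ge_atTop 0] with t ht
    exact (hdec u1 t ht).2
  have hfn : IntervalIntegrable (fun s => ‖f s‖) volume 0 T0 := by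
    rw [intervalIntegrable_iff_integrableOn_Ioc_of_le hT00]
    exact ((hf.integrableOn_isCompact isCompact_Icc).mono_set Ioc_subset_Icc_self).norm
  have hI0 : Tendsto (fun t => ∫ s in (0 : ℝ)..T0, G (t - s) (f s)) atTop (𝓝 0) := by
    have h1 : Tendsto (fun t : ℝ => C * Real.exp (-(γ * (t - T0))) * ∫ s in (0 : ℝ)..T0, ‖f s‖) atTop
        (𝓝 0) := by
      have h2 : Tendsto (fun t : ℝ => Real.exp (-(γ * (t - T0)))) atTop (𝓝 0) :=
        hexp.comp (tendsto_atTop_add_const_right _ (-T0) tendsto_id)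
      simpa using (h2.const_mul C).mul_const (∫ s in (0 : ℝ)..T0, ‖f s‖)
    refine squeeze_zero_norm' ?_ h1
    filter_upwards [eventually_ge_atTop T0] with t ht
    rw [← intervalIntegral.integral_const_mul]
    refine intervalIntegral.norm_integral_le_of_norm_le hT00 ?_ (hfn.const_mul _)
    refine Eventually.of_forall fun s hs => ?_
    have h3 : 0 ≤ t - s := by linarith [hs.2]
    refine ((hdec (f s) (t - s) h3).2).trans ?_
    have h4 : γ * (t - T0) ≤ γ * (t - s) :=
      mul_le_mul_of_nonneg_left (by linarith [hs.2]) hγ.le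
    have h5 : Real.exp (-(γ * (t - s))) ≤ Real.exp (-(γ * (t - T0))) :=
      Real.exp_le_exp.2 (by linarith)
    calc C * ‖f s‖ * Real.exp (-(γ * (t - s))) ≤ C * ‖f s‖ * Real.exp (-(γ * (t - T0))) :=
          mul_le_mul_of_nonneg_left h5 (mul_nonneg hC (norm_nonneg _))
      _ = C * Real.exp (-(γ * (t - T0))) * ‖f s‖ := by ring
  have hE : Tendsto (fun t => z t + G t u1 + ∫ s in (0 : ℝ)..T0, G (t - s) (f s)) atTop (𝓝 0) := by
    simpa using (hzz.add hg0).add hI0
  have hEε : ∀ᶠ t in atTop, ‖z t + G t u1 + ∫ s in (0 : ℝ)..T0, G (t - s) (f s)‖ < ε := by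
    have h1 := hE.norm
    rw [norm_zero] at h1
    exact h1.eventually_lt_const hε
  filter_upwards [hEε, eventually_ge_atTop T0] with t ht1 ht2
  have hi1 := Gint G C hGc hb f hf t 0 T0 hT00 ht2
  have hi2 := Gint G C hGc hb f hf t T0 t ht2 le_rfl
  set w : H := ∫ s in T0..t, G (t - s) (f s) with hwdef
  have hsplit : z t + G t u1 + ∫ s in (0 : ℝ)..t, G (t - s) (f s) =
      (z t + G t u1 + ∫ s in (0 : ℝ)..T0, G (t - s) (f s)) + w := by
    rw [hwdef, ← intervalIntegral.integral_add_adjacent_intervals hi1 hi2]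
    abel
  have hvc : Continuous fun s => ‖G s w‖ := (hGc w).norm
  have hw : ‖w‖ ^ 2 ≤ L * (K * ‖w‖) := by
    have h1 : ‖w‖ ^ 2 = ∫ s in T0..t, ⟪w, G (t - s) (f s)⟫ := by
      rw [← real_inner_self_eq_norm_sq]
      have h8 := (innerSL ℝ w).intervalIntegral_comp_comm hi2
      simp only [innerSL_apply_apply] at h8
      rw [h8]
    have hi3 : IntervalIntegrable (fun s => ⟪w, G (t - s) (f s)⟫) volume T0 t := by
      rw [intervalIntegrable_iff_integrableOn_Ioc_of_le ht2] at hi2 ⊢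
      exact (innerSL ℝ w).integrable_comp hi2
    have h2 : ∀ s ∈ Icc T0 t, ⟪w, G (t - s) (f s)⟫ ≤ ‖G (t - s) w‖ * L := by
      intro s hs
      rw [← hsym]
      exact (real_inner_le_norm _ _).trans
        (mul_le_mul_of_nonneg_left (hT0 s hs.1) (norm_nonneg _))
    have h4 : ∫ s in T0..t, ⟪w, G (t - s) (f s)⟫ ≤ ∫ s in T0..t, ‖G (t - s) w‖ * L := by
      refine intervalIntegral.integral_mono_on ht2 hi3 ?_ h2
      exact ((hvc.comp (continuous_const.sub continuous_id)).mul
        continuous_const).intervalIntegrable _ _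
    have h5 : ∫ s in T0..t, ‖G (t - s) w‖ * L = (∫ r in (0 : ℝ)..(t - T0), ‖G r w‖) * L := by
      rw [intervalIntegral.integral_mul_const]
      congr 1
      have := intervalIntegral.integral_comp_sub_left (fun r => ‖G r w‖) t (a := T0) (b := t)
      rw [this, sub_self]
    have h6 : ∫ r in (0 : ℝ)..(t - T0), ‖G r w‖ ≤ ∫ r in Ioi (0 : ℝ), ‖G r w‖ := by
      rw [intervalIntegral.integral_of_le (by linarith)]
      exact setIntegral_mono_set (Gvint G C γ hγ hGc (fun v s hs => (hdec v s hs).2) w)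
        (Eventually.of_forall fun _ => norm_nonneg _)
        (LE.le.eventuallyLE fun r hr => hr.1)
    rw [h1]
    calc ∫ s in T0..t, ⟪w, G (t - s) (f s)⟫ ≤ _ := h4
      _ = (∫ r in (0 : ℝ)..(t - T0), ‖G r w‖) * L := h5
      _ ≤ (∫ r in Ioi (0 : ℝ), ‖G r w‖) * L := mul_le_mul_of_nonneg_right h6 hL0
      _ ≤ (K * ‖w‖) * L := mul_le_mul_of_nonneg_right (hP w) hL0
      _ = _ := mul_comm _ _
  have hw2 : ‖w‖ ≤ K * L := by
    by_contra hcon
    push Not at hcon
    have h1 : 0 ≤ K * L := mul_nonneg hK hL0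
    have h2 : 0 < ‖w‖ := lt_of_le_of_lt h1 hcon
    nlinarith
  rw [hsplit]
  refine (norm_add_le _ _).trans ?_
  linarith

end Pool.Agent.X200.DA
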