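import Mathlib
import Pool.Agent.X83.DA.Stm
import Pool.Agent.X200.DA.UP

/-! Project DA: the first two claims of ST1 (exponential bounds, `∫ G v = 0`). -/

set_option autoImplicit false

namespace Pool.Agent.X200.DA

open MeasureTheory Set Filter Topology RealInnerProductSpace
open Pool.Agent.X83.DA

theorem st1a (H : Type*) [NormedAddCommGroup H] [InnerProductSpace ℝ H] [CompleteSpace H]
    (hEN : S_EN H) (b c1 c2 : ℝ) (hb : 0 < b) (hc1 : 0 < c1) (hc : c1 ≤ c2) :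
    ∃ γ0 : ℝ, 0 < γ0 ∧ ∀ γ : ℝ, 0 < γ → γ ≤ γ0 → ∃ C : ℝ, 0 ≤ C ∧
      ∀ (D : Submodule ℝ H) (A : D →ₗ[ℝ] H), SA D A b → ∀ c ∈ Icc c1 c2,
      ∀ P G : ℝ → H →L[ℝ] H, Fam D A c P G →
      (∀ (v : H) (s : ℝ), 0 ≤ s → ‖P s v‖ ≤ C * ‖v‖ * Real.exp (-(γ * s)) ∧
        ‖G s v‖ ≤ C * ‖v‖ * Real.exp (-(γ * s))) ∧
      (∀ v : H, ∫ s in Ioi (0 : ℝ), G s v = 0) := by
  obtain ⟨γ1, hγ1, hEN1⟩ := hEN b c1 c2 hb hc1 hc
  refine ⟨γ1 / 2, by linarith, fun γ hγ hγγ => ?_⟩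
  obtain ⟨C, hC, hEN2⟩ := hEN1 (2 * γ) (by linarith) (by linarith)
  refine ⟨C, hC, fun D A hSA c hcc P G hF => ?_⟩
  have hPc : ∀ x : H, Continuous fun s => P s x := fun x =>
    continuous_iff_continuousAt.2 fun s => (hF.dP x s).continuousAt
  have h1 : ∀ (v : D) (s : ℝ), 0 ≤ s → ‖P s (v : H)‖ ≤ C * ‖(v : H)‖ * Real.exp (-(γ * s)) ∧
      ‖G s (v : H)‖ ≤ C * ‖(v : H)‖ * Real.exp (-(γ * s)) := by
    intro v s hs
    have h2 := hEN2 D A hSA c hcc (fun s => P s (v : H)) (fun s => G s (v : H))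
      (fun s => P s (A v)) (fun _ => 0) 0 le_rfl (hPc _) (hF.dP _)
      (fun s => by simpa using hF.dG s v) (fun s => hF.comP s v) (fun s _ => by simp) s hs
    have h3 : -(2 * γ / 2 * s) = -(γ * s) := by ring
    simp only [hF.P0, hF.G0] at h2
    rw [h3] at h2
    simpa using h2
  have h4 : ∀ (v : H) (s : ℝ), 0 ≤ s → ‖P s v‖ ≤ C * ‖v‖ * Real.exp (-(γ * s)) ∧
      ‖G s v‖ ≤ C * ‖v‖ * Real.exp (-(γ * s)) := by
    intro v s hs
    have hcl : IsClosed {v : H | ‖P s v‖ ≤ C * ‖v‖ * Real.exp (-(γ * s)) ∧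
        ‖G s v‖ ≤ C * ‖v‖ * Real.exp (-(γ * s))} := by
      refine IsClosed.inter (isClosed_le (P s).continuous.norm ?_)
        (isClosed_le (G s).continuous.norm ?_) <;> fun_prop
    have h5 : (D : Set H) ⊆ {v : H | ‖P s v‖ ≤ C * ‖v‖ * Real.exp (-(γ * s)) ∧
        ‖G s v‖ ≤ C * ‖v‖ * Real.exp (-(γ * s))} := fun x hx => h1 ⟨x, hx⟩ s hs
    have h6 := hcl.closure_subset_iff.2 h5
    exact h6 (hSA.dense v)
  refine ⟨h4, fun v => ?_⟩
  have hint : IntegrableOn (fun s => G s v) (Ioi 0) := by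
    have h7 := Gvint G C γ hγ hF.cont (fun v s hs => (h4 v s hs).2) v
    exact (integrable_norm_iff (hF.cont v).aestronglyMeasurable).1 h7
  have hexp : Tendsto (fun t : ℝ => Real.exp (-(γ * t))) atTop (𝓝 0) :=
    Real.tendsto_exp_neg_atTop_nhds_zero.comp (tendsto_id.const_mul_atTop hγ)
  have hlim : Tendsto (fun s => P s v) atTop (𝓝 0) := by
    have h8 : Tendsto (fun t : ℝ => C * ‖v‖ * Real.exp (-(γ * t))) atTop (𝓝 0) := by
      simpa using hexp.const_mul (C * ‖v‖)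
    refine squeeze_zero_norm' ?_ h8
    filter_upwards [eventually_ge_atTop 0] with t ht
    exact (h4 v t ht).1
  have h9 := integral_Ioi_of_hasDerivAt_of_tendsto (hPc v).continuousWithinAt
    (fun s _ => hF.dP v s) hint hlim
  rw [h9, hF.P0]
  simp

end Pool.Agent.X200.DA
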