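import Mathlib
import Pool.Agent.X83.DA.Stm
import Pool.Agent.X200.DA.ST1a

/-! Project DA: ST1 (second order difference quotient estimate). -/

set_option autoImplicit false

namespace Pool.Agent.X200.DA

open MeasureTheory Set Filter Topology RealInnerProductSpace
open Pool.Agent.X83.DA

theorem XX_cont {H : Type*} [NormedAddCommGroup H] [InnerProductSpace ℝ H] [CompleteSpace H]
    (c : ℝ) (p : ℝ → H) (hp : Continuous p) : Continuous (XX c p) := by
  unfold XX
  have h1 : Continuous fun s : ℝ => ∫ r in (0 : ℝ)..s, (r * Real.exp (c * r / 2)) • p r := by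
    refine intervalIntegral.continuous_primitive (fun a b => ?_) 0
    have h2 : Continuous fun r : ℝ => (r * Real.exp (c * r / 2)) • p r := by fun_prop
    exact h2.intervalIntegrable _ _
  refine Continuous.add ?_ (Continuous.smul ?_ h1) <;> fun_prop

theorem st1 (H : Type*) [NormedAddCommGroup H] [InnerProductSpace ℝ H] [CompleteSpace H] :
    Pool.Agent.X83.DA.S_ST1 H := by
  intro hEN hYID hMEM b c1 c2 hb hc1 hc
  obtain ⟨γa, hγa, hA⟩ := st1a H hEN b c1 c2 hb hc1 hc
  obtain ⟨γb, hγb, hB⟩ := hEN b c1 c2 hb hc1 hc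
  set γ : ℝ := min γa γb / 4 with hγdef
  have hmin : 0 < min γa γb := lt_min hγa hγb
  have hγ : 0 < γ := by positivity
  have h4a : 4 * γ ≤ γa := by
    rw [hγdef]
    have := min_le_left γa γb
    linarith
  have h4b : 4 * γ ≤ γb := by
    rw [hγdef]
    have := min_le_right γa γb
    linarith
  obtain ⟨C1, hC1, h1⟩ := hA (4 * γ) (by linarith) h4a
  obtain ⟨C2, hC2, h2⟩ := hB (4 * γ) (by linarith) h4b
  obtain ⟨C3, hC3, h3⟩ := hB (2 * γ) (by linarith) (by linarith)
  have hmono : ∀ s : ℝ, 0 ≤ s → Real.exp (-(4 * γ * s)) ≤ Real.exp (-(γ * s)) := fun s hs => by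
    refine Real.exp_le_exp.2 ?_
    have := mul_nonneg hγ.le hs
    linarith
  have hC213 : 0 ≤ C3 * (C2 * C1) := by positivity
  refine ⟨γ, C1 + C3 * (C2 * C1), hγ, by linarith, ?_⟩
  intro D A hSA c h hc1c hh hc2 P G P' G' hF hF'
  have hcc : c ∈ Icc c1 c2 := ⟨hc1c, by linarith⟩
  have hcc' : c + h ∈ Icc c1 c2 := ⟨by linarith, hc2⟩
  obtain ⟨h4, h5⟩ := h1 D A hSA c hcc P G hF
  have hPc : ∀ x : H, Continuous fun s => P s x := fun x =>
    continuous_iff_continuousAt.2 fun s => (hF.dP x s).continuousAt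
  have hPc' : ∀ x : H, Continuous fun s => P' s x := fun x =>
    continuous_iff_continuousAt.2 fun s => (hF'.dP x s).continuousAt
  refine ⟨?_, h5, ?_⟩
  · intro v s hs
    have e1 : C1 * ‖v‖ * Real.exp (-(4 * γ * s)) ≤
        (C1 + C3 * (C2 * C1)) * ‖v‖ * Real.exp (-(γ * s)) := by
      refine mul_le_mul ?_ (hmono s hs) (Real.exp_pos _).le (by positivity)
      exact mul_le_mul_of_nonneg_right (by linarith) (norm_nonneg _)
    exact ⟨((h4 v s hs).1).trans e1, ((h4 v s hs).2).trans e1⟩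
  · intro v
    obtain ⟨y1, y2⟩ := hYID c (fun s => P s (v : H)) (fun s => G s (v : H)) (fun s => P s (A v))
      (by simp [hF.P0]) (hPc _) (hF.dP _) (fun s => hF.dG s v)
    have hX0 : XX c (fun s => P s (v : H)) 0 = 0 := by simp [XX]
    have hXq0 : XX c (fun s => P s (A v)) 0 = 0 := by simp [XX]
    have hY0 : YY c (fun s => G s (v : H)) 0 = 0 := by simp [YY]
    have hXqc := XX_cont c _ (hPc (A v))
    -- the bound for `Y`
    have hY : ∀ s : ℝ, 0 ≤ s → ‖YY c (fun s => G s (v : H)) s‖ ≤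
        C2 * (C1 * ‖(v : H)‖) * Real.exp (-(2 * γ * s)) := by
      intro s hs
      have h6 := (h2 D A hSA c hcc (XX c (fun s => P s (v : H))) (YY c (fun s => G s (v : H)))
        (XX c (fun s => P s (A v))) (fun s => -(G s (v : H))) (C1 * ‖(v : H)‖) (by positivity)
        hXqc y1 (fun s => by rw [← sub_eq_add_neg]; exact y2 s)
        (fun s => hMEM D A b c P G hSA hF v s)
        (fun s hs => by rw [norm_neg]; exact (h4 (v : H) s hs).2) s hs).2
      rw [hX0, hXq0, hY0] at h6
      have e2 : -(4 * γ / 2 * s) = -(2 * γ * s) := by ring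
      rw [e2] at h6
      simpa using h6
    intro s hs
    have h7 := (h3 D A hSA (c + h) hcc'
      (fun s => P' s (v : H) - P s (v : H) - h • XX c (fun s => P s (v : H)) s)
      (fun s => G' s (v : H) - G s (v : H) - h • YY c (fun s => G s (v : H)) s)
      (fun s => P' s (A v) - P s (A v) - h • XX c (fun s => P s (A v)) s)
      (fun s => -(h ^ 2 • YY c (fun s => G s (v : H)) s)) (h ^ 2 * (C2 * (C1 * ‖(v : H)‖)))
      (by positivity)
      (((hPc' _).sub (hPc _)).sub (hXqc.const_smul h))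
      (fun s => ((hF'.dP _ s).sub (hF.dP _ s)).sub ((y1 s).const_smul h))
      (fun s => ?_) (fun s => ?_) (fun s hs => ?_) s hs).2
    · simp only [hF.P0, hF'.P0, hF.G0, hF'.G0, hX0, hXq0, hY0] at h7
      have e2 : -(2 * γ / 2 * s) = -(γ * s) := by ring
      rw [e2] at h7
      refine h7.trans ?_
      simp only [ContinuousLinearMap.zero_apply, sub_self, smul_zero, inner_zero_left,
        Real.sqrt_zero, norm_zero, zero_add]
      have e3 : (C1 + C3 * (C2 * C1)) * ‖(v : H)‖ * h ^ 2 * Real.exp (-(γ * s)) -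
          C3 * (h ^ 2 * (C2 * (C1 * ‖(v : H)‖))) * Real.exp (-(γ * s)) =
          C1 * ‖(v : H)‖ * h ^ 2 * Real.exp (-(γ * s)) := by ring
      have e4 : 0 ≤ C1 * ‖(v : H)‖ * h ^ 2 * Real.exp (-(γ * s)) := by positivity
      linarith
    · have d1 := ((hF'.dG s v).sub (hF.dG s v)).sub ((y2 s).const_smul h)
      refine d1.congr_deriv ?_
      module
    · obtain ⟨m1, n1⟩ := hF'.comP s v
      obtain ⟨m2, n2⟩ := hF.comP s v
      obtain ⟨m3, n3⟩ := hMEM D A b c P G hSA hF v s
      refine ⟨D.sub_mem (D.sub_mem m1 m2) (D.smul_mem h m3), ?_⟩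
      rw [← n1, ← n2, ← n3, ← map_sub, ← map_smul, ← map_sub]
      rfl
    · rw [norm_neg, norm_smul, Real.norm_of_nonneg (by positivity : (0 : ℝ) ≤ h ^ 2), mul_assoc]
      exact mul_le_mul_of_nonneg_left (hY s hs) (by positivity)

end Pool.Agent.X200.DA
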